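import Mathlib

/-!
# The Benes network

Every permutation of the cube `{0,1}^k` is a product of `2 k` permutations, each of which moves
points along one prescribed coordinate only.
-/

set_option autoImplicit false

namespace Pool.Agent.Helper1.BN

open Finset

section

variable {α : Type*} [Fintype α] [DecidableEq α]

/-- A permutation of `2 × α` splits into two planes. -/
theorem split (π : Equiv.Perm (Bool × α)) : ∃ (s t : α → Bool) (ρ : Bool → Equiv.Perm α),
    ∀ b a, π (xor b (s a), a) = (xor b (t (ρ b a)), ρ b a) := by
  classical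
  -- Hall
  have hall : ∃ g : α → α, Function.Injective g ∧
      ∀ a, g a ∈ ({(π (false, a)).2, (π (true, a)).2} : Finset α) := by
    apply (Finset.all_card_le_biUnion_card_iff_exists_injective
      (fun a => ({(π (false, a)).2, (π (true, a)).2} : Finset α))).mp
    intro S
    set N := S.biUnion fun a => ({(π (false, a)).2, (π (true, a)).2} : Finset α) with hN
    have h1 : ((Finset.univ : Finset Bool) ×ˢ S).card ≤ ((Finset.univ : Finset Bool) ×ˢ N).card := by
      apply Finset.card_le_card_of_injOn (fun p => π p)
      · intro p hp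
        obtain ⟨b, a⟩ := p
        have hp' := (Finset.mem_product.mp hp).2
        refine Finset.mem_product.mpr ⟨Finset.mem_univ _, ?_⟩
        rw [hN, Finset.mem_biUnion]
        refine ⟨a, hp', ?_⟩
        cases b <;> simp
      · intro p _ q _ h
        exact π.injective h
    rw [Finset.card_product, Finset.card_product, Finset.card_univ, Fintype.card_bool] at h1
    omega
  obtain ⟨g, hg, hgm⟩ := hall
  have hc : ∀ a, ∃ b : Bool, (π (b, a)).2 = g a := by
    intro a
    have := hgm a
    rw [Finset.mem_insert, Finset.mem_singleton] at this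
    rcases this with h | h
    · exact ⟨false, h.symm⟩
    · exact ⟨true, h.symm⟩
  choose c hc using hc
  have hgb : Function.Bijective g := Finite.injective_iff_bijective.mp hg
  set h : α → α := fun a => (π (!c a, a)).2 with hh
  have two : ∀ (x y z : Bool × α), x ≠ y → (π x).2 = (π y).2 → (π z).2 = (π x).2 → z = x ∨ z = y := by
    intro x y z hxy h1 h2
    have n1 : (π x).1 ≠ (π y).1 := fun h3 => hxy (π.injective (Prod.ext h3 h1))
    by_cases h3 : (π z).1 = (π x).1
    · exact Or.inl (π.injective (Prod.ext h3 h2))
    · right
      apply π.injective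
      apply Prod.ext _ (h2.trans h1)
      revert n1 h3
      generalize (π x).1 = u
      generalize (π y).1 = v
      generalize (π z).1 = w
      revert u v w
      decide
  have hhi : Function.Injective h := by
    intro a a' haa
    by_contra hne
    obtain ⟨a'', ha''⟩ := hgb.2 (h a)
    have h1 := two (!c a, a) (!c a', a') (c a'', a'') (by
      intro h2; exact hne (congrArg Prod.snd h2)) haa (by rw [hc, ha''])
    rcases h1 with h1 | h1
    · have e2 : a'' = a := congrArg Prod.snd h1
      subst e2
      have e1 : c a'' = !c a'' := congrArg Prod.fst h1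
      revert e1; generalize c a'' = u; revert u; decide
    · have e2 : a'' = a' := congrArg Prod.snd h1
      subst e2
      have e1 : c a'' = !c a'' := congrArg Prod.fst h1
      revert e1; generalize c a'' = u; revert u; decide
  have hhb : Function.Bijective h := Finite.injective_iff_bijective.mp hhi
  set G : Equiv.Perm α := Equiv.ofBijective g hgb with hG
  set H : Equiv.Perm α := Equiv.ofBijective h hhb with hH
  refine ⟨c, fun j => (π (c (G.symm j), G.symm j)).1, fun b => bif b then H else G, ?_⟩
  intro b a
  cases b
  · simp only [Bool.false_bne, cond_false]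
    have e1 : G.symm (G a) = a := G.symm_apply_apply a
    rw [e1]
    apply Prod.ext
    · rfl
    · rw [hc]; rfl
  · simp only [cond_true]
    have e0 : (xor true (c a)) = !c a := by cases c a <;> rfl
    rw [e0]
    apply Prod.ext
    · set j := H a with hj
      have hj' : (π (!c a, a)).2 = j := rfl
      set a'' := G.symm j with ha''
      have e1 : g a'' = j := G.apply_symm_apply j
      have e2 : (π (c a'', a'')).2 = j := by rw [hc, e1]
      have hne : ((!c a, a) : Bool × α) ≠ (c a'', a'') := by
        intro h1
        have e2 : a = a'' := congrArg Prod.snd h1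
        rw [← e2] at h1
        have e1 : (!c a) = c a := congrArg Prod.fst h1
        revert e1; generalize c a = u; revert u; decide
      have n1 : (π (!c a, a)).1 ≠ (π (c a'', a'')).1 := fun h3 =>
        hne (π.injective (Prod.ext h3 (hj'.trans e2.symm)))
      change (π (!c a, a)).1 = xor true (π (c a'', a'')).1
      revert n1
      generalize (π (!c a, a)).1 = u
      generalize (π (c a'', a'')).1 = v
      revert u v
      decide
    · rfl

/-- The switches at the first coordinate. -/
def sw (s : α → Bool) : Equiv.Perm (Bool × α) where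
  toFun p := (xor p.1 (s p.2), p.2)
  invFun p := (xor p.1 (s p.2), p.2)
  left_inv p := by
    apply Prod.ext
    · simp
    · rfl
  right_inv p := by
    apply Prod.ext
    · simp
    · rfl

/-- Two permutations in the two planes. -/
def plane (ρ : Bool → Equiv.Perm α) : Equiv.Perm (Bool × α) where
  toFun p := (p.1, ρ p.1 p.2)
  invFun p := (p.1, (ρ p.1).symm p.2)
  left_inv p := by simp
  right_inv p := by simp

theorem split' (π : Equiv.Perm (Bool × α)) : ∃ (s t : α → Bool) (ρ : Bool → Equiv.Perm α),
    π = sw t * (plane ρ * sw s) := by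
  obtain ⟨s, t, ρ, h⟩ := split π
  refine ⟨s, t, ρ, ?_⟩
  ext1 ⟨b, a⟩
  have h1 := h (xor b (s a)) a
  have e : xor (xor b (s a)) (s a) = b := by cases b <;> cases s a <;> rfl
  rw [e] at h1
  rw [h1]
  rfl

end

section

/-- The point with coordinate `i` changed. -/
def flip {k : ℕ} (i : Fin k) (x : Fin k → Bool) : Fin k → Bool := Function.update x i (!(x i))

/-- The schedule of the network. -/
def sched : (k : ℕ) → List (Fin k)
  | 0 => []
  | k + 1 => 0 :: ((sched k).map Fin.succ ++ [0])

theorem length_sched (k : ℕ) : (sched k).length = 2 * k := by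
  induction k with
  | zero => rfl
  | succ k ih => simp [sched, ih]; ring

/-- A permutation which moves points along coordinate `i` only. -/
def Along {k : ℕ} (s : Equiv.Perm (Fin k → Bool)) (i : Fin k) : Prop :=
  ∀ x, s x = x ∨ s x = flip i x

/-- The splitting of the first coordinate. -/
def cE (k : ℕ) : (Fin (k + 1) → Bool) ≃ Bool × (Fin k → Bool) :=
  (Fin.consEquiv fun _ => Bool).symm

theorem cE_apply {k : ℕ} (x : Fin (k + 1) → Bool) : cE k x = (x 0, fun i => x i.succ) := rfl

theorem cE_symm {k : ℕ} (b : Bool) (a : Fin k → Bool) : (cE k).symm (b, a) = Fin.cons b a := rfl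

/-- Transport of a permutation. -/
def lift {k : ℕ} (σ : Equiv.Perm (Bool × (Fin k → Bool))) : Equiv.Perm (Fin (k + 1) → Bool) :=
  ((cE k).trans σ).trans (cE k).symm

theorem lift_mul {k : ℕ} (σ τ : Equiv.Perm (Bool × (Fin k → Bool))) :
    lift (σ * τ) = lift σ * lift τ := by
  ext1 x
  simp [lift]

theorem lift_one {k : ℕ} : lift (1 : Equiv.Perm (Bool × (Fin k → Bool))) = 1 := by
  ext1 x
  simp [lift]

theorem plane_mul {α : Type*} (ρ ρ' : Bool → Equiv.Perm α) :
    plane (fun b => ρ b * ρ' b) = plane ρ * plane ρ' := by
  ext1 ⟨b, a⟩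
  rfl

theorem plane_one {α : Type*} : plane (fun _ => (1 : Equiv.Perm α)) = 1 := by
  ext1 ⟨b, a⟩
  rfl

theorem flip_zero {k : ℕ} (x : Fin (k + 1) → Bool) :
    flip 0 x = (cE k).symm (!(x 0), fun i => x i.succ) := by
  rw [cE_symm]
  ext j
  refine Fin.cases ?_ (fun j => ?_) j
  · simp [flip]
  · simp [flip]

theorem flip_succ {k : ℕ} (i : Fin k) (x : Fin (k + 1) → Bool) :
    flip i.succ x = (cE k).symm (x 0, flip i fun i => x i.succ) := by
  rw [cE_symm]
  ext j
  refine Fin.cases ?_ (fun j => ?_) j
  · simp [flip, Function.update_of_ne (Fin.succ_ne_zero i).symm]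
  · by_cases h : j = i
    · subst h
      simp [flip]
    · have h' : j.succ ≠ i.succ := fun e => h (Fin.succ_injective _ e)
      simp [flip, Function.update_of_ne h, Function.update_of_ne h']

theorem along_sw {k : ℕ} (s : (Fin k → Bool) → Bool) : Along (lift (sw s)) 0 := by
  intro x
  have e : lift (sw s) x = (cE k).symm (xor (x 0) (s fun i => x i.succ), fun i => x i.succ) := rfl
  rw [e, flip_zero]
  cases hs : s fun i => x i.succ
  · left
    rw [Bool.xor_false]
    exact (cE k).symm_apply_apply x
  · right
    rw [Bool.xor_true]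

theorem along_plane {k : ℕ} (ρ : Bool → Equiv.Perm (Fin k → Bool)) (i : Fin k)
    (h : ∀ b, Along (ρ b) i) : Along (lift (plane ρ)) i.succ := by
  intro x
  have e : lift (plane ρ) x = (cE k).symm (x 0, ρ (x 0) fun i => x i.succ) := rfl
  rw [e, flip_succ]
  rcases h (x 0) (fun i => x i.succ) with h1 | h1
  · left
    rw [h1]
    exact (cE k).symm_apply_apply x
  · right
    rw [h1]

/-- The product, first element applied first. -/
def prodL {X : Type*} : List (Equiv.Perm X) → Equiv.Perm X
  | [] => 1
  | s :: L => prodL L * s

theorem prodL_append {X : Type*} (L M : List (Equiv.Perm X)) :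
    prodL (L ++ M) = prodL M * prodL L := by
  induction L with
  | nil => simp [prodL]
  | cons s L ih => simp [prodL, ih, mul_assoc]

theorem combine {k : ℕ} (I : List (Fin k)) (L₀ L₁ : List (Equiv.Perm (Fin k → Bool)))
    (h₀ : List.Forall₂ Along L₀ I) (h₁ : List.Forall₂ Along L₁ I) :
    ∃ L : List (Equiv.Perm (Fin (k + 1) → Bool)), List.Forall₂ Along L (I.map Fin.succ) ∧
      prodL L = lift (plane fun b => bif b then prodL L₁ else prodL L₀) := by
  induction I generalizing L₀ L₁ with
  | nil =>
    cases h₀
    cases h₁
    refine ⟨[], by simp, ?_⟩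
    have e : (fun b : Bool => bif b then prodL ([] : List (Equiv.Perm (Fin k → Bool))) else
        prodL ([] : List (Equiv.Perm (Fin k → Bool)))) = fun _ => 1 := by
      funext b; cases b <;> rfl
    rw [e, plane_one, lift_one]
    rfl
  | cons i I ih =>
    cases h₀ with
    | cons a₀ r₀ =>
      cases h₁ with
      | cons a₁ r₁ =>
        rename_i s₀ M₀ s₁ M₁
        obtain ⟨L, hL, hp⟩ := ih M₀ M₁ r₀ r₁
        refine ⟨lift (plane fun b => bif b then s₁ else s₀) :: L, ?_, ?_⟩
        · rw [List.map_cons]
          refine List.Forall₂.cons (along_plane _ i ?_) hL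
          intro b
          cases b
          · exact a₀
          · exact a₁
        · rw [prodL, hp, ← lift_mul, ← plane_mul]
          congr 2
          funext b
          cases b <;> rfl

/-- **The Benes network.** -/
theorem benes (k : ℕ) (π : Equiv.Perm (Fin k → Bool)) :
    ∃ L : List (Equiv.Perm (Fin k → Bool)), List.Forall₂ Along L (sched k) ∧ prodL L = π := by
  induction k with
  | zero =>
    refine ⟨[], by simp [sched], ?_⟩
    ext x i
    exact i.elim0
  | succ k ih =>
    set π' : Equiv.Perm (Bool × (Fin k → Bool)) := ((cE k).symm.trans π).trans (cE k) with hπ'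
    obtain ⟨s, t, ρ, h⟩ := split' π'
    obtain ⟨L₀, h₀, p₀⟩ := ih (ρ false)
    obtain ⟨L₁, h₁, p₁⟩ := ih (ρ true)
    obtain ⟨L, hL, hp⟩ := combine (sched k) L₀ L₁ h₀ h₁
    refine ⟨lift (sw s) :: (L ++ [lift (sw t)]), ?_, ?_⟩
    · rw [sched]
      refine List.Forall₂.cons (along_sw s) ?_
      apply List.rel_append hL
      exact List.Forall₂.cons (along_sw t) List.Forall₂.nil
    · have e1 : (fun b : Bool => bif b then prodL L₁ else prodL L₀) = ρ := by
        funext b
        cases b
        · exact p₀
        · exact p₁
      rw [prodL, prodL_append, hp, e1]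
      have e2 : prodL [lift (sw t)] = lift (sw t) := by simp [prodL]
      rw [e2, mul_assoc, ← lift_mul, ← lift_mul, ← h]
      ext1 x
      simp [lift, hπ']

/-- The position of the token `x` after `j` levels. -/
def pos {X : Type*} (σ : ℕ → Equiv.Perm X) : ℕ → X → X
  | 0, x => x
  | j + 1, x => σ j (pos σ j x)

theorem pos_succ {X : Type*} (σ : ℕ → Equiv.Perm X) (j : ℕ) (x : X) :
    pos σ (j + 1) x = σ j (pos σ j x) := rfl

theorem pos_succ' {X : Type*} (σ : ℕ → Equiv.Perm X) (j : ℕ) (x : X) :
    pos σ (j + 1) x = pos (fun i => σ (i + 1)) j (σ 0 x) := by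
  induction j with
  | zero => rfl
  | succ j ih =>
    rw [pos_succ, ih, pos_succ]

theorem pos_injective {X : Type*} (σ : ℕ → Equiv.Perm X) (j : ℕ) :
    Function.Injective (pos σ j) := by
  induction j with
  | zero => exact fun _ _ h => h
  | succ j ih => exact (σ j).injective.comp ih

theorem prodL_eq_pos {X : Type*} (L : List (Equiv.Perm X)) (x : X) :
    prodL L x = pos (fun j => L.getD j 1) L.length x := by
  induction L generalizing x with
  | nil => rfl
  | cons s L ih =>
    rw [prodL, Equiv.Perm.mul_apply, ih, List.length_cons, pos_succ']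
    rfl

/-- **The Benes network**, as a sequence of permutations. -/
theorem benes_seq (k : ℕ) (π : Equiv.Perm (Fin k → Bool)) :
    ∃ σ : ℕ → Equiv.Perm (Fin k → Bool),
      (∀ j (hj : j < (sched k).length), Along (σ j) ((sched k)[j])) ∧
      ∀ x, pos σ (2 * k) x = π x := by
  obtain ⟨L, hL, hp⟩ := benes k π
  have hlen : L.length = (sched k).length := hL.length_eq
  refine ⟨fun j => L.getD j 1, ?_, ?_⟩
  · intro j hj
    have hj' : j < L.length := by omega
    have h := (List.forall₂_iff_get.mp hL).2 j hj' hj
    have e : L.getD j 1 = L[j] := by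
      rw [List.getD_eq_getElem?_getD, List.getElem?_eq_getElem hj']
      rfl
    simp only [e]
    exact h
  · intro x
    rw [← hp, prodL_eq_pos, hlen, length_sched]

end

end Pool.Agent.Helper1.BN
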